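import Mathlib

set_option autoImplicit false

open scoped ENNReal NNReal

namespace Pool.Agent.Results.MP_ca3f0d_an.TwoAdicObstruction

/-- The integral `k`-sphere `S_{d,k}(r) = {m ∈ ℤ^d : |m_1|^k + ... + |m_d|^k = r^k}`. -/
def kSphere (d k : ℕ) (r : ℝ) : Set (Fin d → ℤ) :=
  {m | ∑ i, |(m i : ℝ)| ^ k = r ^ k}

/-- `N_{d,k}(r) = # S_{d,k}(r)` (the set is finite for `k ≥ 1`). -/
noncomputable def kCount (d k : ℕ) (r : ℝ) : ℕ := (kSphere d k r).ncard

/-- The admissible radii `{r > 0 : r^k ∈ ℕ, N_{d,k}(r) > 0}`. -/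
def admissibleRadii (d k : ℕ) : Set ℝ :=
  {r | 0 < r ∧ (∃ n : ℕ, r ^ k = (n : ℝ)) ∧ 0 < kCount d k r}

/-- The `k`-spherical average `A_r f(x) = N_{d,k}(r)⁻¹ ∑_{m ∈ S_{d,k}(r)} f(x - m)`. -/
noncomputable def kAverage (d k : ℕ) (r : ℝ) (f : (Fin d → ℤ) → ℂ) (x : Fin d → ℤ) : ℂ :=
  (kCount d k r : ℂ)⁻¹ * ∑ᶠ m ∈ kSphere d k r, f (x - m)

/-- The `k`-spherical maximal function `A_* f(x) = sup_{r admissible} |A_r f(x)| ∈ [0,∞]`. -/
noncomputable def kMaximal (d k : ℕ) (f : (Fin d → ℤ) → ℂ) (x : Fin d → ℤ) : ℝ≥0∞ :=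
  ⨆ r ∈ admissibleRadii d k, ‖kAverage d k r f x‖ₑ

/-- The `ℓ^p(ℤ^d)` norm `(∑_x g(x)^p)^{1/p}` of a `[0,∞]`-valued function. -/
noncomputable def ellNorm {d : ℕ} (p : ℝ) (g : (Fin d → ℤ) → ℝ≥0∞) : ℝ≥0∞ :=
  (∑' x, g x ^ p) ^ (1 / p)

/-- `A_*` is bounded on `ℓ^p(ℤ^d)`: there is a finite constant `C` with
`‖A_* f‖_{ℓ^p} ≤ C ‖f‖_{ℓ^p}` for every `f ∈ ℓ^p(ℤ^d)`. -/
def MaximalBounded (d k : ℕ) (p : ℝ) : Prop :=
  ∃ C : ℝ≥0, ∀ f : (Fin d → ℤ) → ℂ, ellNorm p (fun x => ‖f x‖ₑ) < ∞ →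
    ellNorm p (kMaximal d k f) ≤ C * ellNorm p (fun x => ‖f x‖ₑ)

/-! ### Basic facts on the spheres -/

lemma kSphere_finite (d k : ℕ) (hk : k ≠ 0) (r : ℝ) (hr : 0 ≤ r) : (kSphere d k r).Finite := by
  refine (Set.finite_Icc (fun _ : Fin d => -⌈r⌉) (fun _ : Fin d => ⌈r⌉)).subset ?_
  intro m hm
  have hm' : ∑ i, |(m i : ℝ)| ^ k = r ^ k := hm
  have key : ∀ i, |(m i : ℝ)| ≤ r := by
    intro i
    have h1 : |(m i : ℝ)| ^ k ≤ r ^ k := by
      rw [← hm']
      exact Finset.single_le_sum (f := fun i => |(m i : ℝ)| ^ k)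
        (fun i _ => pow_nonneg (abs_nonneg _) k) (Finset.mem_univ i)
    exact le_of_pow_le_pow_left₀ hk hr h1
  rw [Set.mem_Icc, Pi.le_def, Pi.le_def]
  refine ⟨fun i => ?_, fun i => ?_⟩
  · have h2 := (abs_le.mp (key i)).1
    have h3 : (-⌈r⌉ : ℝ) ≤ (m i : ℝ) := le_trans (neg_le_neg (Int.le_ceil r)) h2
    exact_mod_cast h3
  · have h2 := (abs_le.mp (key i)).2
    have h3 : (m i : ℝ) ≤ (⌈r⌉ : ℝ) := le_trans h2 (Int.le_ceil r)
    exact_mod_cast h3

/-- An odd integer satisfies `x^(2^j) ≡ 1 mod 2^(j+2)` for `j ≥ 1`. -/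
lemma odd_pow_two_pow (x : ℤ) (hx : Odd x) (j : ℕ) (hj : 1 ≤ j) :
    (2 : ℤ) ^ (j + 2) ∣ x ^ (2 ^ j) - 1 := by
  induction j, hj using Nat.le_induction with
  | base =>
    obtain ⟨t, rfl⟩ := hx
    have h : Even (t * (t + 1)) := Int.even_mul_succ_self t
    obtain ⟨s, hs⟩ := h
    refine ⟨s, ?_⟩
    have : (2 * t + 1) ^ 2 ^ 1 - 1 = 4 * (t * (t + 1)) := by ring
    rw [this, hs]; ring
  | succ j hj ih =>
    have h1 : x ^ 2 ^ (j + 1) - 1 = (x ^ 2 ^ j - 1) * (x ^ 2 ^ j + 1) := by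
      rw [pow_succ 2 j, pow_mul]; ring
    have h2 : (2 : ℤ) ∣ x ^ 2 ^ j + 1 := by
      have : Odd (x ^ 2 ^ j) := hx.pow
      have h3 : Even (x ^ 2 ^ j + 1) := this.add_one
      exact even_iff_two_dvd.mp h3
    rw [h1]
    have : (2 : ℤ) ^ (j + 1 + 2) = 2 ^ (j + 2) * 2 := by ring
    rw [this]
    exact mul_dvd_mul ih h2

lemma add_two_le_two_pow (j : ℕ) (hj : 2 ≤ j) : j + 2 ≤ 2 ^ j := by
  induction j, hj using Nat.le_induction with
  | base => norm_num
  | succ j hj ih => rw [pow_succ]; omega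

/-- Integer form of membership in the sphere, for even exponents. -/
lemma mem_kSphere_iff (d j : ℕ) (hj : 1 ≤ j) (s : ℕ) (m : Fin d → ℤ) :
    m ∈ kSphere d (2 ^ j) ((2 : ℝ) ^ s) ↔ ∑ i, m i ^ (2 ^ j) = ((2 : ℤ) ^ s) ^ (2 ^ j) := by
  have he : Even (2 ^ j) := (Nat.even_pow.mpr ⟨even_two, by omega⟩)
  have h1 : ∀ i, |(m i : ℝ)| ^ (2 ^ j) = ((m i ^ (2 ^ j) : ℤ) : ℝ) := by
    intro i
    rw [he.pow_abs]; push_cast; rfl
  unfold kSphere
  rw [Set.mem_ofPred_eq]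
  rw [Finset.sum_congr rfl (fun i _ => h1 i)]
  constructor
  · intro h
    have : ((∑ i, m i ^ (2 ^ j) : ℤ) : ℝ) = (((2 : ℤ) ^ s) ^ (2 ^ j) : ℤ) := by
      push_cast
      push_cast at h
      exact h
    exact_mod_cast this
  · intro h
    have : ((∑ i, m i ^ (2 ^ j) : ℤ) : ℝ) = (((2 : ℤ) ^ s) ^ (2 ^ j) : ℤ) := by
      rw [h]
    push_cast at this
    push_cast
    exact this

/-- The 2-adic obstruction: in dimension `d < 4k`, `k = 2^j`, every lattice point on the sphere of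
radius `2^(s+1)` has all its coordinates even. -/
lemma all_even (d j : ℕ) (hj : 2 ≤ j) (hd : d < 4 * 2 ^ j) (s : ℕ) (m : Fin d → ℤ)
    (hm : m ∈ kSphere d (2 ^ j) ((2 : ℝ) ^ (s + 1))) : ∀ i, Even (m i) := by
  classical
  rw [mem_kSphere_iff d j (by omega)] at hm
  -- the number of odd coordinates
  set O : Finset (Fin d) := Finset.univ.filter (fun i => Odd (m i)) with hO
  have hcard : O.card ≤ d := by
    calc O.card ≤ (Finset.univ : Finset (Fin d)).card := Finset.card_filter_le _ _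
      _ = d := by simp
  have hdvd : (2 : ℤ) ^ (j + 2) ∣ (O.card : ℤ) := by
    have h1 : (2 : ℤ) ^ (j + 2) ∣ ∑ i, (m i ^ (2 ^ j) - if Odd (m i) then 1 else 0) := by
      refine Finset.dvd_sum (fun i _ => ?_)
      by_cases h : Odd (m i)
      · rw [if_pos h]
        exact odd_pow_two_pow _ h j (by omega)
      · rw [if_neg h, sub_zero]
        have he : Even (m i) := Int.not_odd_iff_even.mp h
        have h2 : (2 : ℤ) ∣ m i := even_iff_two_dvd.mp he
        exact (pow_dvd_pow (2 : ℤ) (add_two_le_two_pow j hj)).trans (pow_dvd_pow_of_dvd h2 _)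
    rw [Finset.sum_sub_distrib, hm] at h1
    have h3 : (2 : ℤ) ^ (j + 2) ∣ ((2 : ℤ) ^ (s + 1)) ^ (2 ^ j) := by
      rw [← pow_mul]
      refine pow_dvd_pow _ ?_
      have := add_two_le_two_pow j hj
      nlinarith [this, Nat.zero_le s]
    have h4 : (∑ i, (if Odd (m i) then (1 : ℤ) else 0)) = (O.card : ℤ) := by
      rw [hO, Finset.card_filter]
      push_cast
      rfl
    rw [h4] at h1
    exact (dvd_sub_right h3).mp h1
  have hO0 : O.card = 0 := by
    by_contra hne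
    have hpos : 0 < O.card := Nat.pos_of_ne_zero hne
    have h5 : (2 : ℕ) ^ (j + 2) ∣ O.card := by exact_mod_cast hdvd
    have h6 := Nat.le_of_dvd hpos h5
    have h7 : (2 : ℕ) ^ (j + 2) = 4 * 2 ^ j := by ring
    omega
  intro i
  rw [Finset.card_eq_zero] at hO0
  by_contra hne
  have : i ∈ O := by
    rw [hO, Finset.mem_filter]
    exact ⟨Finset.mem_univ _, Int.not_even_iff_odd.mp hne⟩
  rw [hO0] at this
  exact absurd this (Finset.notMem_empty i)

/-- Dilation by `2` maps the sphere of radius `2^s` onto the sphere of radius `2^(s+1)`. -/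
lemma kSphere_succ (d j : ℕ) (hj : 2 ≤ j) (hd : d < 4 * 2 ^ j) (s : ℕ) :
    kSphere d (2 ^ j) ((2 : ℝ) ^ (s + 1)) =
      (fun m : Fin d → ℤ => fun i => 2 * m i) '' kSphere d (2 ^ j) ((2 : ℝ) ^ s) := by
  ext m
  constructor
  · intro hm
    have heven := all_even d j hj hd s m hm
    have hdv : ∀ i, (2 : ℤ) ∣ m i := fun i => even_iff_two_dvd.mp (heven i)
    choose q hq using hdv
    refine ⟨q, ?_, ?_⟩
    · rw [mem_kSphere_iff d j (by omega)] at hm ⊢
      have h1 : ∑ i, m i ^ (2 ^ j) = 2 ^ (2 ^ j) * ∑ i, q i ^ (2 ^ j) := by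
        rw [Finset.mul_sum]
        refine Finset.sum_congr rfl (fun i _ => ?_)
        rw [hq i, mul_pow]
      have h2 : ((2 : ℤ) ^ (s + 1)) ^ (2 ^ j) = 2 ^ (2 ^ j) * (2 ^ s) ^ (2 ^ j) := by
        rw [pow_succ, mul_pow, mul_comm]
      rw [h1, h2] at hm
      exact mul_left_cancel₀ (by positivity) hm
    · funext i
      exact (hq i).symm
  · rintro ⟨q, hq, rfl⟩
    rw [mem_kSphere_iff d j (by omega)] at hq ⊢
    have h1 : ∑ i, (2 * q i) ^ (2 ^ j) = 2 ^ (2 ^ j) * ∑ i, q i ^ (2 ^ j) := by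
      rw [Finset.mul_sum]
      refine Finset.sum_congr rfl (fun i _ => ?_)
      rw [mul_pow]
    rw [h1, hq, pow_succ, mul_pow, mul_comm]

/-- All the spheres of radius `2^s` have the same number of lattice points. -/
lemma kCount_two_pow (d j : ℕ) (hj : 2 ≤ j) (hd : d < 4 * 2 ^ j) (s : ℕ) :
    kCount d (2 ^ j) ((2 : ℝ) ^ s) = kCount d (2 ^ j) 1 := by
  induction s with
  | zero => rw [pow_zero]
  | succ s ih =>
    rw [← ih]
    unfold kCount
    rw [kSphere_succ d j hj hd s]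
    refine Set.ncard_image_of_injective _ ?_
    intro a b hab
    funext i
    have := congrFun hab i
    simpa using this

/-- The point `2^s e_1`. -/
def axisPoint (d : ℕ) (hd : 0 < d) (s : ℕ) : Fin d → ℤ :=
  Pi.single ⟨0, hd⟩ ((2 : ℤ) ^ s)

lemma axisPoint_mem (d k : ℕ) (hk : k ≠ 0) (hd : 0 < d) (s : ℕ) :
    axisPoint d hd s ∈ kSphere d k ((2 : ℝ) ^ s) := by
  unfold kSphere
  rw [Set.mem_ofPred_eq]
  rw [Finset.sum_eq_single (⟨0, hd⟩ : Fin d)]
  · unfold axisPoint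
    rw [Pi.single_eq_same]
    push_cast
    rw [abs_of_pos (by positivity)]
  · intro b _ hb
    unfold axisPoint
    rw [Pi.single_eq_of_ne hb]
    simp [hk]
  · intro h
    exact absurd (Finset.mem_univ _) h

lemma axisPoint_injective (d : ℕ) (hd : 0 < d) : Function.Injective (axisPoint d hd) := by
  intro s t hst
  have h := congrFun hst ⟨0, hd⟩
  unfold axisPoint at h
  rw [Pi.single_eq_same, Pi.single_eq_same] at h
  exact Int.pow_right_injective (by norm_num) h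

lemma kCount_pos (d k : ℕ) (hk : k ≠ 0) (hd : 0 < d) (s : ℕ) :
    0 < kCount d k ((2 : ℝ) ^ s) := by
  unfold kCount
  rw [Set.ncard_pos (kSphere_finite d k hk _ (by positivity))]
  exact ⟨_, axisPoint_mem d k hk hd s⟩

lemma two_pow_admissible (d k : ℕ) (hk : k ≠ 0) (hd : 0 < d) (s : ℕ) :
    ((2 : ℝ) ^ s) ∈ admissibleRadii d k := by
  refine ⟨by positivity, ⟨(2 ^ s) ^ k, by push_cast; rfl⟩, kCount_pos d k hk hd s⟩

/-- The unit mass at the origin. -/
noncomputable def delta0 (d : ℕ) : (Fin d → ℤ) → ℂ := Pi.single 0 1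

lemma kAverage_delta0 (d k : ℕ) (hk : k ≠ 0) (hd : 0 < d) (s : ℕ) :
    kAverage d k ((2 : ℝ) ^ s) (delta0 d) (axisPoint d hd s) =
      (kCount d k ((2 : ℝ) ^ s) : ℂ)⁻¹ := by
  classical
  unfold kAverage
  have hfin := kSphere_finite d k hk ((2 : ℝ) ^ s) (by positivity)
  rw [finsum_mem_eq_finite_toFinset_sum _ hfin]
  rw [Finset.sum_eq_single (axisPoint d hd s)]
  · rw [sub_self]
    unfold delta0
    rw [Pi.single_eq_same, mul_one]
  · intro b _ hb
    unfold delta0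
    rw [Pi.single_eq_of_ne]
    intro h
    exact hb (sub_eq_zero.mp h).symm
  · intro h
    exfalso
    apply h
    rw [Set.Finite.mem_toFinset]
    exact axisPoint_mem d k hk hd s

/-- For `k = 2^j ≥ 4`, in every dimension `1 ≤ d < 4k` (in particular for all `2k < d < 4k`) and for
every exponent `0 < p < ∞`, the discrete `k`-spherical maximal operator `A_*` is not bounded on
`ℓ^p(ℤ^d)`. -/
theorem result (j d : ℕ) (hj : 2 ≤ j) (hd0 : 0 < d) (hd : d < 4 * 2 ^ j) (p : ℝ) (hp : 0 < p) :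
    ¬ MaximalBounded d (2 ^ j) p := by
  rintro ⟨C, hC⟩
  have hk : (2 ^ j : ℕ) ≠ 0 := by positivity
  have hdelta : ellNorm p (fun x => ‖delta0 d x‖ₑ) = 1 := by
    unfold ellNorm
    have h1 : ∑' x, ‖delta0 d x‖ₑ ^ p = 1 := by
      rw [tsum_eq_single (0 : Fin d → ℤ)]
      · unfold delta0
        rw [Pi.single_eq_same, enorm_one, ENNReal.one_rpow]
      · intro b hb
        unfold delta0
        rw [Pi.single_eq_of_ne hb, enorm_zero, ENNReal.zero_rpow_of_pos hp]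
    rw [h1, ENNReal.one_rpow]
  have hmax : ellNorm p (kMaximal d (2 ^ j) (delta0 d)) = ∞ := by
    unfold ellNorm
    have h1 : ∑' x, kMaximal d (2 ^ j) (delta0 d) x ^ p = ∞ := by
      rw [eq_top_iff]
      have h2 : ∀ s : ℕ, ((kCount d (2 ^ j) 1 : ℝ≥0∞)⁻¹) ^ p ≤
          kMaximal d (2 ^ j) (delta0 d) (axisPoint d hd0 s) ^ p := by
        intro s
        refine ENNReal.rpow_le_rpow ?_ hp.le
        unfold kMaximal
        refine le_trans (le_of_eq ?_)
          (le_iSup₂ (f := fun r (_ : r ∈ admissibleRadii d (2 ^ j)) =>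
            ‖kAverage d (2 ^ j) r (delta0 d) (axisPoint d hd0 s)‖ₑ)
            ((2 : ℝ) ^ s) (two_pow_admissible d (2 ^ j) hk hd0 s))
        rw [kAverage_delta0 d (2 ^ j) hk hd0 s, kCount_two_pow d j hj hd s]
        have hpos : 0 < kCount d (2 ^ j) 1 := by
          have := kCount_pos d (2 ^ j) hk hd0 0
          rwa [pow_zero] at this
        rw [enorm_inv (by exact_mod_cast hpos.ne')]
        congr 1
        rw [← ofReal_norm]
        simp
      calc (∞ : ℝ≥0∞) = ∑' _ : ℕ, ((kCount d (2 ^ j) 1 : ℝ≥0∞)⁻¹) ^ p := by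
            symm
            apply ENNReal.tsum_const_eq_top_of_ne_zero
            intro h0
            rw [ENNReal.rpow_eq_zero_iff] at h0
            rcases h0 with ⟨h0, _⟩ | ⟨_, h0⟩
            · rw [ENNReal.inv_eq_zero] at h0
              exact ENNReal.natCast_ne_top _ h0
            · linarith
        _ ≤ ∑' s : ℕ, kMaximal d (2 ^ j) (delta0 d) (axisPoint d hd0 s) ^ p :=
            ENNReal.tsum_le_tsum h2
        _ ≤ ∑' x, kMaximal d (2 ^ j) (delta0 d) x ^ p :=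
            ENNReal.tsum_comp_le_tsum_of_injective (axisPoint_injective d hd0)
              (fun x => kMaximal d (2 ^ j) (delta0 d) x ^ p)
    rw [h1]
    exact ENNReal.top_rpow_of_pos (by positivity)
  have h := hC (delta0 d) (by rw [hdelta]; exact ENNReal.one_lt_top)
  rw [hdelta, hmax, mul_one] at h
  exact absurd h (not_le.mpr ENNReal.coe_lt_top)

end Pool.Agent.Results.MP_ca3f0d_an.TwoAdicObstruction
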